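import Pool.Agent.Helper28.TW.KX2a
import Pool.Agent.Helper62.TOW.KX1

/-!
# Project TW, block KX2: `-1`, and the classes of order two of a hyperelliptic curve
-/

set_option autoImplicit false

namespace Pool.Agent.TOW

open VC IntermediateField NumberField IsDedekindDomain Pool.Agent.SC Pool.Agent.L Pool.Agent.M

namespace KX2aux

section core

variable {E U : Type} [Field E] [IsAlgClosed E] [Field U] [Algebra E U]
  {M : IntermediateField E U}

theorem T_fix {X : M} {T : U ≃+* U} (hTE : ∀ e : E, T (algebraMap E U e) = algebraMap E U e)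
    (hTX : T (X : U) = X) {a : M} (ha : a ∈ E⟮X⟯) : T (a : U) = a := by
  induction ha using IntermediateField.adjoin_induction with
  | mem y hy =>
    rw [Set.mem_singleton_iff.1 hy, hTX]
  | algebraMap c => exact hTE c
  | add y z _ _ h1 h2 =>
    have h3 : ((y + z : M) : U) = y + z := rfl
    rw [h3, map_add, h1, h2]
  | inv y _ h1 =>
    have h3 : ((y⁻¹ : M) : U) = (y : U)⁻¹ := rfl
    rw [h3, map_inv₀, h1]
  | mul y z _ _ h1 h2 =>
    have h3 : ((y * z : M) : U) = y * z := rfl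
    rw [h3, map_mul, h1, h2]

variable (hc : IsCover M) {X r : M} (hX : Transcendental E X) {c₀ : E} (hc₀ : c₀ ≠ 0) {B : Finset E}
  (hr : r ^ 2 = algebraMap E M c₀ * ∏ β ∈ B, (X - algebraMap E M β)) (h2 : (2 : M) ≠ 0)
  (hspan : ∀ z : M, ∃ a ∈ E⟮X⟯, ∃ b ∈ E⟮X⟯, z = a + b * r)

include hc hX hc₀ hr h2 hspan

theorem core2 {T : U ≃+* U} (hTE : ∀ e : E, T (algebraMap E U e) = algebraMap E U e)
    (hTX : T (X : U) = X) (hTr : T (r : U) = -r) {N : ℕ} (hN : 0 < N) {w : U} (hw0 : w ≠ 0)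
    (hw : w ^ N ∈ M) : ∃ q : M, q ∈ E⟮X⟯ ∧ w * T w = q := by
  obtain ⟨a, ha, b, hb, hab⟩ := hspan ⟨w ^ N, hw⟩
  have h1 : w ^ N = ((a + b * r : M) : U) := congrArg Subtype.val hab
  have h1' : T w ^ N = ((a - b * r : M) : U) := by
    rw [← map_pow, h1]
    have h3 : ((a + b * r : M) : U) = (a : U) + b * r := rfl
    have h4 : ((a - b * r : M) : U) = (a : U) - b * r := rfl
    rw [h3, h4, map_add, map_mul, T_fix hTE hTX ha, T_fix hTE hTX hb, hTr]
    ring
  have hTw0 : T w ≠ 0 := (_root_.map_ne_zero T).2 hw0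
  have h0 : a + b * r ≠ 0 := by
    intro h
    rw [h] at h1
    exact pow_ne_zero N hw0 h1
  have h0' : a - b * r ≠ 0 := by
    intro h
    rw [h] at h1'
    exact pow_ne_zero N hTw0 h1'
  obtain ⟨c, hc0, q, hq, hq0, hcq⟩ := norm_pow hc.ff hX hc₀ hr h2 hspan N ha hb h0 h0'
    (fun P => hc.dvd_ord le_rfl hc.ff h0 h1 P) (fun P => hc.dvd_ord le_rfl hc.ff h0' h1' P)
  obtain ⟨δ, hδ⟩ := IsAlgClosed.exists_pow_nat_eq c hN
  have hδ0 : δ ≠ 0 := by
    rintro rfl
    rw [zero_pow hN.ne'] at hδ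
    exact hc0 hδ.symm
  have hqU : (q : U) ≠ 0 := fun h => hq0 (Subtype.ext h)
  have hδU : algebraMap E U δ ≠ 0 := (_root_.map_ne_zero _).2 hδ0
  have h5 : (w * T w) ^ N = algebraMap E U c * (q : U) ^ N := by
    rw [mul_pow, h1, h1']
    exact congrArg Subtype.val hcq
  obtain ⟨e, he⟩ := root_const62 (E := E) hN (ζ := w * T w / (algebraMap E U δ * q)) (by
    rw [div_pow, h5, mul_pow, ← map_pow, hδ]
    exact div_self (mul_ne_zero ((_root_.map_ne_zero _).2 hc0) (pow_ne_zero _ hqU)))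
  refine ⟨algebraMap E M (e * δ) * q, mul_mem (E⟮X⟯.algebraMap_mem _) hq, ?_⟩
  have h6 : ((algebraMap E M (e * δ) * q : M) : U) = algebraMap E U (e * δ) * q := rfl
  rw [h6, map_mul, he, mul_assoc, div_mul_cancel₀]
  exact mul_ne_zero hδU hqU

theorem core3a {T : U ≃+* U} (hTE : ∀ e : E, T (algebraMap E U e) = algebraMap E U e)
    (hTX : T (X : U) = X) (hTr : T (r : U) = -r) {w : U} (hw0 : w ≠ 0)
    (hw : w ^ 2 ∈ M) : ∃ S ⊆ B, ∀ ww : E → U, (∀ β ∈ B, ww β ^ 2 = (X : U) - algebraMap E U β) →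
      w * ∏ β ∈ S, ww β ∈ M := by
  obtain ⟨q, hq, hwq⟩ := core2 hc hX hc₀ hr h2 hspan hTE hTX hTr two_pos hw0 hw
  obtain ⟨a, ha, b, hb, hab⟩ := hspan ⟨w ^ 2, hw⟩
  have h1 : w ^ 2 = (a : U) + b * r := congrArg Subtype.val hab
  have h1' : T w ^ 2 = (a : U) - b * r := by
    rw [← map_pow, h1, map_add, map_mul, T_fix hTE hTX ha, T_fix hTE hTX hb, hTr]
    ring
  have h2U : (2 : U) ≠ 0 := fun h => h2 (Subtype.ext h)
  -- the square root `s`
  obtain ⟨s, g, m, hs0, hg, hsg, hwm⟩ : ∃ (s : U) (g m : M), s ≠ 0 ∧ g ∈ E⟮X⟯ ∧ s ^ 2 = g ∧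
      w * s = m := by
    by_cases hs : w + T w = 0
    · refine ⟨w - T w, 2 * a - 2 * q, a + b * r - q, ?_, ?_, ?_, ?_⟩
      · intro h3
        have h4 : 2 * w = 0 := by linear_combination hs + h3
        exact hw0 ((mul_eq_zero.1 h4).resolve_left h2U)
      · exact sub_mem (mul_mem (ofNat_mem _ 2) ha) (mul_mem (ofNat_mem _ 2) hq)
      · have h3 : ((2 * a - 2 * q : M) : U) = 2 * (a : U) - 2 * q := rfl
        rw [h3]
        linear_combination h1 + h1' - 2 * hwq
      · have h3 : ((a + b * r - q : M) : U) = (a : U) + b * r - q := rfl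
        rw [h3]
        linear_combination h1 - hwq
    · refine ⟨w + T w, 2 * a + 2 * q, a + b * r + q, hs, ?_, ?_, ?_⟩
      · exact add_mem (mul_mem (ofNat_mem _ 2) ha) (mul_mem (ofNat_mem _ 2) hq)
      · have h3 : ((2 * a + 2 * q : M) : U) = 2 * (a : U) + 2 * q := rfl
        rw [h3]
        linear_combination h1 + h1' + 2 * hwq
      · have h3 : ((a + b * r + q : M) : U) = (a : U) + b * r + q := rfl
        rw [h3]
        linear_combination h1 + hwq
  have hg0 : g ≠ 0 := by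
    rintro rfl
    exact pow_ne_zero 2 hs0 hsg
  obtain ⟨S, hSB, c, hc0, q', hq', hq'0, hgS⟩ := sq_part hc.ff hX hc₀ hr h2 hspan hg hg0
    (fun P => hc.dvd_ord (n := 2) le_rfl hc.ff hg0 hsg P)
  refine ⟨S, hSB, fun ww hww => ?_⟩
  obtain ⟨δ, hδ⟩ := IsAlgClosed.exists_pow_nat_eq c two_pos
  have hprod : (∏ β ∈ S, ww β) ^ 2 = ((∏ β ∈ S, (X - algebraMap E M β) : M) : U) := by
    rw [← Finset.prod_pow]
    have h3 : ((∏ β ∈ S, (X - algebraMap E M β) : M) : U) =
        ∏ β ∈ S, ((X : U) - algebraMap E U β) := map_prod (algebraMap M U) _ _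
    rw [h3]
    exact Finset.prod_congr rfl fun β hβ => hww β (hSB hβ)
  have h3 : (s * ∏ β ∈ S, ww β) ^ 2 =
      ((algebraMap E M δ * q' * ∏ β ∈ S, (X - algebraMap E M β) : M) : U) ^ 2 := by
    rw [mul_pow, hsg, hprod, hgS, ← hδ, map_pow]
    have h4 : ∀ y z : M, ((y * z : M) : U) = (y : U) * z := fun y z => rfl
    have h5 : ∀ y : M, ((y ^ 2 : M) : U) = (y : U) ^ 2 := fun y => rfl
    simp only [h4, h5]
    ring
  have h4 : s * ∏ β ∈ S, ww β ∈ M := by
    rcases sq_eq_sq_iff_eq_or_eq_neg.1 h3 with h5 | h5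
    · rw [h5]
      exact Subtype.coe_prop _
    · rw [h5]
      exact neg_mem (Subtype.coe_prop _)
  have h5 : w * ∏ β ∈ S, ww β = (m : U) * (s * ∏ β ∈ S, ww β) / g := by
    rw [← hwm, ← hsg]
    field_simp
  rw [h5]
  exact div_mem (mul_mem m.2 h4) g.2

theorem core3b (hrX : r ∉ E⟮X⟯) {S : Finset E} (hS : S ⊆ B) {ww : E → U}
    (hww : ∀ β ∈ B, ww β ^ 2 = (X : U) - algebraMap E U β) :
    ∏ β ∈ S, ww β ∈ M ↔ S = ∅ ∨ S = B := by
  have hprod : ∀ S ⊆ B, (∏ β ∈ S, ww β) ^ 2 = ((∏ β ∈ S, (X - algebraMap E M β) : M) : U) := by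
    intro S hS
    rw [← Finset.prod_pow]
    have h3 : ((∏ β ∈ S, (X - algebraMap E M β) : M) : U) =
        ∏ β ∈ S, ((X : U) - algebraMap E U β) := map_prod (algebraMap M U) _ _
    rw [h3]
    exact Finset.prod_congr rfl fun β hβ => hww β (hS hβ)
  constructor
  · intro h
    exact square_iff hc.ff hX hc₀ hr h2 hspan hrX hS (z := ⟨_, h⟩) (Subtype.ext (hprod S hS))
  · rintro (rfl | rfl)
    · rw [Finset.prod_empty]
      exact one_mem _
    · obtain ⟨δ, hδ⟩ := IsAlgClosed.exists_pow_nat_eq c₀ two_pos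
      have hδ0 : δ ≠ 0 := by
        rintro rfl
        rw [zero_pow two_ne_zero] at hδ
        exact hc₀ hδ.symm
      have hδU : algebraMap E U δ ≠ 0 := (_root_.map_ne_zero _).2 hδ0
      have h3 := congrArg Subtype.val hr
      have h4 : (r : U) ^ 2 = algebraMap E U c₀ * ((∏ β ∈ S, (X - algebraMap E M β) : M) : U) := h3
      have h5 : (∏ β ∈ S, ww β) ^ 2 = ((r : U) / algebraMap E U δ) ^ 2 := by
        rw [hprod S (Finset.Subset.refl _), div_pow, h4, ← map_pow, hδ]
        have h6 : algebraMap E U c₀ ≠ 0 := (_root_.map_ne_zero _).2 hc₀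
        field_simp
      have h6 : (r : U) / algebraMap E U δ ∈ M := div_mem r.2 (M.algebraMap_mem δ)
      rcases sq_eq_sq_iff_eq_or_eq_neg.1 h5 with h7 | h7
      · rw [h7]; exact h6
      · rw [h7]; exact neg_mem h6

end core

section geo

variable {k K0 E U : Type} [Field k] [Field K0] [Field E] [Field U] [Algebra k K0]
    [Algebra k E] [Algebra E U] [Algebra K0 U] [Algebra k U] [IsScalarTower k E U]
    [IsScalarTower k K0 U]

theorem L0_eq {x : K0} (gen : IntermediateField.adjoin k {x} = ⊤) :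
    L0 E K0 (U := U) = E⟮algebraMap K0 U x⟯ := by
  apply le_antisymm
  · refine IntermediateField.adjoin_le_iff.2 ?_
    rintro _ ⟨y, rfl⟩
    have hy : y ∈ IntermediateField.adjoin k {x} := by rw [gen]; trivial
    obtain ⟨p, q, rfl⟩ := (mem_adjoin_simple_iff k y).1 hy
    have h1 : ∀ p : Polynomial k, algebraMap K0 U (Polynomial.aeval x p) ∈
        E⟮algebraMap K0 U x⟯ := by
      intro p
      rw [← Polynomial.aeval_algebraMap_apply, ← Polynomial.aeval_map_algebraMap E]
      exact algebra_adjoin_le_adjoin _ _ (Polynomial.aeval_mem_adjoin_singleton _ _)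
    rw [map_div₀]
    exact div_mem (h1 p) (h1 q)
  · rw [IntermediateField.adjoin_simple_le_iff]
    exact IntermediateField.subset_adjoin _ _ ⟨x, rfl⟩

/-- every element of `M` is `a + b r` -/
theorem span_MM {r : U} {h : K0} (hrsq : r ^ 2 = algebraMap K0 U h)
    (hrn : r ∉ L0 E K0 (U := U)) {z : U} (hz : z ∈ MM E K0 r) :
    ∃ a ∈ L0 E K0 (U := U), ∃ b ∈ L0 E K0 (U := U), z = a + b * r := by
  have hh : r ^ 2 ∈ L0 E K0 (U := U) := by
    rw [hrsq]
    exact IntermediateField.subset_adjoin _ _ ⟨h, rfl⟩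
  let S : IntermediateField E U :=
    { carrier := {z | ∃ a ∈ L0 E K0 (U := U), ∃ b ∈ L0 E K0 (U := U), z = a + b * r}
      mul_mem' := by
        rintro _ _ ⟨a, ha, b, hb, rfl⟩ ⟨c, hc, d, hd, rfl⟩
        exact ⟨a * c + b * d * r ^ 2, add_mem (mul_mem ha hc) (mul_mem (mul_mem hb hd) hh),
          a * d + b * c, add_mem (mul_mem ha hd) (mul_mem hb hc), by ring⟩
      add_mem' := by
        rintro _ _ ⟨a, ha, b, hb, rfl⟩ ⟨c, hc, d, hd, rfl⟩
        exact ⟨a + c, add_mem ha hc, b + d, add_mem hb hd, by ring⟩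
      algebraMap_mem' := fun c => ⟨algebraMap E U c, (L0 E K0).algebraMap_mem c, 0, zero_mem _,
        by ring⟩
      inv_mem' := by
        rintro _ ⟨a, ha, b, hb, rfl⟩
        by_cases h0 : a + b * r = 0
        · exact ⟨0, zero_mem _, 0, zero_mem _, by rw [h0]; simp⟩
        have h1 : a ^ 2 - b ^ 2 * r ^ 2 ≠ 0 := by
          intro h1
          have h3 : (a + b * r) * (a - b * r) = 0 := by linear_combination h1
          have h4 := (mul_eq_zero.1 h3).resolve_left h0
          by_cases hb0 : b = 0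
          · subst hb0
            apply h0
            linear_combination h4
          · apply hrn
            have h5 : r = a / b := by
              field_simp
              linear_combination -h4
            rw [h5]
            exact div_mem ha hb
        have h3 : a ^ 2 - b ^ 2 * r ^ 2 ∈ L0 E K0 (U := U) :=
          sub_mem (pow_mem ha 2) (mul_mem (pow_mem hb 2) hh)
        refine ⟨a / (a ^ 2 - b ^ 2 * r ^ 2), div_mem ha h3, -b / (a ^ 2 - b ^ 2 * r ^ 2),
          div_mem (neg_mem hb) h3, ?_⟩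
        have h4 : (a + b * r)⁻¹ = (a - b * r) / (a ^ 2 - b ^ 2 * r ^ 2) := by
          rw [inv_eq_iff_eq_inv, inv_div, eq_div_iff]
          · ring
          · intro h5
            apply h1
            linear_combination (a + b * r) * h5
        rw [h4]
        ring }
  have h1 : MM E K0 r ≤ S := by
    refine IntermediateField.adjoin_le_iff.2 ?_
    rintro _ (⟨y, rfl⟩ | hy)
    · exact ⟨_, IntermediateField.subset_adjoin _ _ ⟨y, rfl⟩, 0, zero_mem _, by ring⟩
    · rw [Set.mem_singleton_iff.1 hy]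
      exact ⟨0, zero_mem _, 1, one_mem _, by ring⟩
  exact h1 hz

/-- the hyperelliptic involution extends to `U` -/
theorem exists_T {h : K0} {r : U} (G : Geo k K0 E U h r) [CharZero U] :
    ∃ T : U ≃+* U, AuE E K0 T ∧ T r = -r := by
  let L := L0 E K0 (U := U)
  let i : K0 →+* L := (algebraMap K0 U).codRestrict L.toSubfield
    fun y => IntermediateField.subset_adjoin _ _ ⟨y, rfl⟩
  letI : Algebra K0 L := i.toAlgebra
  have : IsScalarTower K0 L U := IsScalarTower.of_algebraMap_eq fun _ => rfl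
  have : Normal K0 U := G.normal
  have : Normal L U := Normal.tower_top_of_normal K0 L U
  have : CharZero L := ⟨fun m n hmn => by
    have h1 := congrArg (algebraMap L U) hmn
    simpa using h1⟩
  have : IsGalois L U := ⟨⟩
  by_contra hcon
  push Not at hcon
  apply G.rnot
  have h1 : r ∈ (⊥ : IntermediateField L U) := by
    rw [InfiniteGalois.mem_bot_iff_fixed]
    intro σ
    have hσ : AuE E K0 (σ : U ≃+* U) :=
      { fixK := fun y => σ.commutes (⟨_, IntermediateField.subset_adjoin _ _ ⟨y, rfl⟩⟩ : L)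
        fixE := fun e => σ.commutes (⟨_, L.algebraMap_mem e⟩ : L) }
    have h3 := hcon _ hσ
    have h4 : (σ r) ^ 2 = r ^ 2 := by
      rw [← map_pow, G.rsq]
      exact hσ.fixK h
    rcases sq_eq_sq_iff_eq_or_eq_neg.1 h4 with h5 | h5
    · exact h5
    · exact absurd h5 h3
  obtain ⟨y, hy⟩ := IntermediateField.mem_bot.1 h1
  rw [← hy]
  exact y.2

end geo

end KX2aux

open KX2aux in
/-- BLOCK KX2 for separable polynomials of odd degree -/
theorem kX2S {k K0 E U : Type} [Field k] [NumberField k] [Field K0] [Field E] [Field U]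
    [Algebra k K0] [Algebra k E] [Algebra E U] [Algebra K0 U] [Algebra k U] [IsScalarTower k E U]
    [IsScalarTower k K0 U] {x : K0} {f : Polynomial k} {r : U}
    (G : Geo k K0 E U (Polynomial.aeval x f) r) (gen : IntermediateField.adjoin k {x} = ⊤)
    (tr : Transcendental k x) (sep : f.Separable) (odd : Odd f.natDegree) :
    (∀ β : E, Polynomial.aeval β f = 0 → ∃ w : U, w ^ 2 = algebraMap K0 U x - algebraMap E U β) ∧
    (∀ T : U ≃+* U, AuE E K0 T → T r = -r → ∀ (j : ℕ) (w : U), RX E K0 r (2 ^ j) w →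
      w * T w ∈ MM E K0 r) ∧
    ∀ ww : E → U, (∀ β : E, Polynomial.aeval β f = 0 →
        ww β ^ 2 = algebraMap K0 U x - algebraMap E U β) →
      (∀ w : U, RX E K0 r 2 w → ∃ S : Finset E, (∀ β ∈ S, Polynomial.aeval β f = 0) ∧
        w * ∏ β ∈ S, ww β ∈ MM E K0 r) ∧
      ∀ S : Finset E, (∀ β ∈ S, Polynomial.aeval β f = 0) →
        (∏ β ∈ S, ww β ∈ MM E K0 r ↔ S = ∅ ∨ ∀ β : E, Polynomial.aeval β f = 0 → β ∈ S) := by
  classical
  have hcl : IsAlgClosed E := G.clE
  have hck : CharZero E := charZero_of_injective_algebraMap (algebraMap k E).injective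
  have hcU : CharZero U := charZero_of_injective_algebraMap (algebraMap E U).injective
  have hff := G.cover.ff
  have hL0 := L0_eq (E := E) (U := U) gen
  have hLM : L0 E K0 (U := U) ≤ MM E K0 r :=
    IntermediateField.adjoin.mono _ _ _ Set.subset_union_left
  -- the elements `X`, `r` of `M`
  obtain ⟨X, hXU⟩ : ∃ X : MM E K0 r, (X : U) = algebraMap K0 U x :=
    ⟨⟨_, hLM (IntermediateField.subset_adjoin _ _ ⟨x, rfl⟩)⟩, rfl⟩
  obtain ⟨r', hrU⟩ : ∃ r' : MM E K0 r, (r' : U) = r :=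
    ⟨⟨r, IntermediateField.subset_adjoin _ _ (Set.mem_union_right _ rfl)⟩, rfl⟩
  have hmap : (E⟮X⟯).map (MM E K0 r).val = L0 E K0 (U := U) := by
    rw [IntermediateField.adjoin_map, Set.image_singleton, hL0]
    change E⟮(X : U)⟯ = _
    rw [hXU]
  have hmem : ∀ a : MM E K0 r, a ∈ E⟮X⟯ → (a : U) ∈ L0 E K0 (U := U) := by
    intro a ha
    rw [← hmap]
    exact ⟨a, ha, rfl⟩
  have hmem' : ∀ a ∈ L0 E K0 (U := U), ∃ a' : MM E K0 r, a' ∈ E⟮X⟯ ∧ (a' : U) = a := by
    intro a ha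
    rw [← hmap] at ha
    obtain ⟨a', h1, h3⟩ := ha
    exact ⟨a', h1, h3⟩
  have hXtU : Transcendental E (algebraMap K0 U x) := by
    intro h1
    have : Algebra.IsAlgebraic k E := G.algE
    have h3 : IsAlgebraic k (algebraMap K0 U x) := h1.restrictScalars k
    exact tr ((isAlgebraic_algebraMap_iff (algebraMap K0 U).injective).1 h3)
  have hX : Transcendental E X := by
    intro h1
    apply hXtU
    rw [← hXU]
    exact h1.algebraMap
  have hspan : ∀ z : MM E K0 r, ∃ a ∈ E⟮X⟯, ∃ b ∈ E⟮X⟯, z = a + b * r' := by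
    intro z
    obtain ⟨a, ha, b, hb, hz⟩ := span_MM G.rsq G.rnot z.2
    obtain ⟨a', ha', rfl⟩ := hmem' a ha
    obtain ⟨b', hb', rfl⟩ := hmem' b hb
    refine ⟨a', ha', b', hb', Subtype.ext (hz.trans ?_)⟩
    change (a' : U) + b' * r = a' + b' * (r' : U)
    rw [hrU]
  have hrX : r' ∉ E⟮X⟯ := by
    intro h1
    apply G.rnot
    rw [← hrU]
    exact hmem _ h1
  have h2 : (2 : MM E K0 r) ≠ 0 := by
    intro h1
    have h3 : (2 : U) = 0 := congrArg Subtype.val h1
    exact two_ne_zero h3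
  -- the roots
  set fE : Polynomial E := f.map (algebraMap k E) with hfE
  have hf0 : f ≠ 0 := sep.ne_zero
  have hfE0 : fE ≠ 0 := (Polynomial.map_ne_zero_iff (algebraMap k E).injective).2 hf0
  have hsep : fE.Separable := sep.map
  have hnd : fE.roots.Nodup := Polynomial.nodup_roots hsep
  obtain ⟨B, hB⟩ : ∃ B : Finset E, B = fE.roots.toFinset := ⟨_, rfl⟩
  have hBmem : ∀ β : E, β ∈ B ↔ Polynomial.aeval β f = 0 := by
    intro β
    rw [hB, Multiset.mem_toFinset, Polynomial.mem_roots hfE0, Polynomial.IsRoot.def, hfE,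
      Polynomial.eval_map_algebraMap]
  have hBcard : Odd B.card := by
    rw [hB, Multiset.toFinset_card_of_nodup hnd,
      ← (IsAlgClosed.splits fE).natDegree_eq_card_roots, hfE, Polynomial.natDegree_map]
    exact odd
  have hc₀ : fE.leadingCoeff ≠ 0 := Polynomial.leadingCoeff_ne_zero.2 hfE0
  have hr : r' ^ 2 = algebraMap E (MM E K0 r) fE.leadingCoeff *
      ∏ β ∈ B, (X - algebraMap E (MM E K0 r) β) := by
    have h1 : r' ^ 2 = Polynomial.aeval X fE := by
      apply Subtype.ext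
      have h3 : ((r' ^ 2 : MM E K0 r) : U) = (r' : U) ^ 2 := rfl
      have h4 : ((Polynomial.aeval X fE : MM E K0 r) : U) = Polynomial.aeval (X : U) fE :=
        (Polynomial.aeval_algebraMap_apply U X fE).symm
      rw [h3, h4, hrU, G.rsq, hXU, hfE, Polynomial.aeval_map_algebraMap,
        Polynomial.aeval_algebraMap_apply]
    rw [h1]
    conv_lhs => rw [(IsAlgClosed.splits fE).eq_prod_roots]
    rw [map_mul, Polynomial.aeval_C, map_multiset_prod, Multiset.map_map]
    congr 1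
    have h3 : B.val = fE.roots := by
      rw [hB, Multiset.toFinset_val, Multiset.dedup_eq_self.2 hnd]
    rw [Finset.prod, h3]
    congr 1
    refine Multiset.map_congr rfl fun β _ => ?_
    simp
  obtain ⟨T₀, hT₀, hT₀r⟩ := exists_T G
  refine ⟨?_, ?_, ?_⟩
  · intro β hβ
    obtain ⟨w, hw⟩ := G.cover.exists_root hff (g := X - algebraMap E (MM E K0 r) β)
      (X_sub_ne hX β) two_pos
      (fun P => even_root hff hX hc₀ hr h2 hspan hBcard ((hBmem β).2 hβ) P)
    refine ⟨w, hw.trans ?_⟩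
    rw [← hXU]
    rfl
  · intro T hT hTr j w hw
    obtain ⟨q, _, hq⟩ := core2 G.cover hX hc₀ hr h2 hspan hT.fixE
      (by rw [hXU]; exact hT.fixK x) (by rw [hrU]; exact hTr) (Nat.two_pow_pos j) hw.1 hw.2
    rw [hq]
    exact q.2
  · intro ww hww
    have hww' : ∀ β ∈ B, ww β ^ 2 = (X : U) - algebraMap E U β := by
      intro β hβ
      rw [hXU]
      exact hww β ((hBmem β).1 hβ)
    constructor
    · intro w hw
      obtain ⟨S, hSB, hS⟩ := core3a G.cover hX hc₀ hr h2 hspan hT₀.fixE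
        (by rw [hXU]; exact hT₀.fixK x) (by rw [hrU]; exact hT₀r) hw.1 hw.2
      exact ⟨S, fun β hβ => (hBmem β).1 (hSB hβ), hS ww hww'⟩
    · intro S hS
      have hSB : S ⊆ B := fun β hβ => (hBmem β).2 (hS β hβ)
      rw [core3b G.cover hX hc₀ hr h2 hspan hrX hSB hww']
      refine or_congr Iff.rfl ⟨fun h1 β hβ => ?_, fun h1 => ?_⟩
      · rw [h1]
        exact (hBmem β).2 hβ
      · exact Finset.Subset.antisymm hSB fun β hβ => h1 β ((hBmem β).1 hβ)

/-- BLOCK KX2 -/
theorem kX2 : StmtKX2 := by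
  intro k K0 E U _ _ _ _ _ _ _ _ _ _ _ _ x f r H
  exact kX2S H.geo H.gen H.tr H.irr.separable H.odd

end Pool.Agent.TOW
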