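import Pool.Agent.Helper17.FF.Degree

/-!
# Project TW, block KX2, part one: orders of functions in a hyperelliptic function field

`F = R(r)`, `R = E(X)`, `r² = c₀ ∏ (X - β)`, the product over the finite set `B`.
-/

set_option autoImplicit false

namespace Pool.Agent.TOW.KX2aux

open VC IntermediateField Polynomial

variable {E F : Type*} [Field E] [Field F] [Algebra E F] {X : F}

theorem X_sub_ne (hX : Transcendental E X) (α : E) : X - algebraMap E F α ≠ 0 := by
  intro h
  exact hX (by rw [sub_eq_zero.1 h]; exact isAlgebraic_algebraMap α)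

theorem X_sub_tr (hX : Transcendental E X) (α : E) : Transcendental E (X - algebraMap E F α) := by
  intro h
  apply hX
  have h1 := h.add (isAlgebraic_algebraMap (A := F) α)
  rwa [sub_add_cancel] at h1

/-- the function with prescribed orders at the finite points -/
noncomputable def pr (X : F) (n : E →₀ ℤ) : F := n.prod fun α k => (X - algebraMap E F α) ^ k

theorem pr_zero : pr X (0 : E →₀ ℤ) = 1 := Finsupp.prod_zero_index

theorem pr_add (hX : Transcendental E X) (n m : E →₀ ℤ) : pr X (n + m) = pr X n * pr X m := by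
  classical
  exact Finsupp.prod_add_index' (fun α => zpow_zero _) (fun α k l => zpow_add₀ (X_sub_ne hX α) k l)

theorem pr_ne (hX : Transcendental E X) (n : E →₀ ℤ) : pr X n ≠ 0 :=
  Finset.prod_ne_zero_iff.2 fun α _ => zpow_ne_zero _ (X_sub_ne hX α)

theorem pr_neg (hX : Transcendental E X) (n : E →₀ ℤ) : pr X (-n) = (pr X n)⁻¹ := by
  have h := pr_add hX (-n) n
  rw [neg_add_cancel, pr_zero] at h
  exact eq_inv_of_mul_eq_one_left h.symm

theorem pr_single (α : E) (k : ℤ) : pr X (Finsupp.single α k) = (X - algebraMap E F α) ^ k :=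
  Finsupp.prod_single_index (zpow_zero _)

theorem pr_nsmul (hX : Transcendental E X) (N : ℕ) (n : E →₀ ℤ) : pr X (N • n) = pr X n ^ N := by
  induction N with
  | zero => rw [zero_smul, pr_zero, pow_zero]
  | succ N ih => rw [succ_nsmul, pr_add hX, ih, pow_succ]

theorem pr_mem (n : E →₀ ℤ) : pr X n ∈ E⟮X⟯ :=
  prod_mem fun α _ => zpow_mem (sub_mem (mem_adjoin_simple_self E X)
    (E⟮X⟯.algebraMap_mem α)) _

/-- the function `∏ (X - β)` -/
theorem pr_finset (hX : Transcendental E X) (B : Finset E) :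
    pr X (∑ β ∈ B, Finsupp.single β (1 : ℤ)) = ∏ β ∈ B, (X - algebraMap E F β) := by
  classical
  induction B using Finset.induction_on with
  | empty => rw [Finset.sum_empty, pr_zero, Finset.prod_empty]
  | insert a s ha ih =>
    rw [Finset.sum_insert ha, Finset.prod_insert ha, pr_add hX, ih, pr_single, zpow_one]

theorem sum_single_apply [DecidableEq E] (B : Finset E) (α : E) :
    (∑ β ∈ B, Finsupp.single β (1 : ℤ)) α = if α ∈ B then 1 else 0 := by
  rw [Finsupp.finset_sum_apply]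
  by_cases h : α ∈ B
  · rw [if_pos h, Finset.sum_eq_single α]
    · rw [Finsupp.single_apply, if_pos rfl]
    · intro b _ hb
      rw [Finsupp.single_apply, if_neg hb]
    · intro h2
      exact absurd h h2
  · rw [if_neg h]
    refine Finset.sum_eq_zero fun b hb => ?_
    rw [Finsupp.single_apply, if_neg (fun h2 : b = α => h (h2 ▸ hb))]

theorem facp [IsAlgClosed E] (hX : Transcendental E X) {p : E[X]} (hp : p ≠ 0) :
    ∃ (c : E) (n : E →₀ ℤ), c ≠ 0 ∧ aeval X p = algebraMap E F c * pr X n := by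
  have h1 : ∀ s : Multiset E, ∃ n : E →₀ ℤ,
      aeval X (s.map fun a => Polynomial.X - C a).prod = pr X n := by
    intro s
    induction s using Multiset.induction_on with
    | empty => exact ⟨0, by simp [pr_zero]⟩
    | cons a s ih =>
      obtain ⟨n, hn⟩ := ih
      refine ⟨Finsupp.single a 1 + n, ?_⟩
      rw [Multiset.map_cons, Multiset.prod_cons, map_mul, hn, pr_add hX, pr_single, zpow_one,
        map_sub, aeval_X, aeval_C]
  obtain ⟨n, hn⟩ := h1 p.roots
  refine ⟨p.leadingCoeff, n, leadingCoeff_ne_zero.2 hp, ?_⟩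
  conv_lhs => rw [(IsAlgClosed.splits p).eq_prod_roots]
  rw [map_mul, aeval_C, hn]

/-- factorisation in the rational function field -/
theorem fac [IsAlgClosed E] (hX : Transcendental E X) {g : F} (hg : g ∈ E⟮X⟯) (hg0 : g ≠ 0) :
    ∃ (c : E) (n : E →₀ ℤ), c ≠ 0 ∧ g = algebraMap E F c * pr X n := by
  obtain ⟨p, q, rfl⟩ := (mem_adjoin_simple_iff E g).1 hg
  have hp : p ≠ 0 := by
    rintro rfl
    simp at hg0
  have hq : q ≠ 0 := by
    rintro rfl
    simp at hg0
  obtain ⟨c, n, hc, h1⟩ := facp hX hp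
  obtain ⟨d, m, hd, h2⟩ := facp hX hq
  refine ⟨c / d, n + -m, div_ne_zero hc hd, ?_⟩
  rw [h1, h2, pr_add hX, pr_neg hX, map_div₀]
  field_simp

section ord

variable [IsAlgClosed E] (hF : IsFunctionField E F)

include hF

theorem ord_sub_ne (hX : Transcendental E X) {P : Place E F} {α₀ : E}
    (hP : X - algebraMap E F α₀ ∈ P.ring.nonunits) {α : E} (h : α ≠ α₀) :
    ord P.ring (X - algebraMap E F α) = 0 := by
  have h1 : X - algebraMap E F α = algebraMap E F (α₀ - α) + (X - algebraMap E F α₀) := by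
    rw [map_sub]; ring
  have h0 : α₀ - α ≠ 0 := sub_ne_zero.2 (Ne.symm h)
  rw [h1, (FF.ord_add_eq_left hF P ((_root_.map_ne_zero _).2 h0) (X_sub_ne hX α₀) (by
    rw [FF.ord_algebraMap hF P h0]
    exact (FF.ord_pos_iff hF P (X_sub_ne hX α₀)).2 hP)).2, FF.ord_algebraMap hF P h0]

theorem ord_pr (hX : Transcendental E X) {P : Place E F} {α₀ : E}
    (hP : X - algebraMap E F α₀ ∈ P.ring.nonunits) (n : E →₀ ℤ) :
    ord P.ring (pr X n) = n α₀ * ord P.ring (X - algebraMap E F α₀) := by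
  unfold pr
  rw [Finsupp.prod, FF.ord_prod hF P _ _ fun α _ => zpow_ne_zero _ (X_sub_ne hX α),
    Finset.sum_eq_single α₀]
  · rw [FF.ord_zpow hF P (X_sub_ne hX α₀)]
  · intro α _ h
    rw [FF.ord_zpow hF P (X_sub_ne hX α), ord_sub_ne hF hX hP h, mul_zero]
  · intro h
    rw [Finsupp.notMem_support_iff.1 h, zpow_zero, FF.ord_one hF P]

theorem ord_fac (hX : Transcendental E X) {P : Place E F} {α₀ : E}
    (hP : X - algebraMap E F α₀ ∈ P.ring.nonunits) {c : E} (hc : c ≠ 0) (n : E →₀ ℤ) :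
    ord P.ring (algebraMap E F c * pr X n) = n α₀ * ord P.ring (X - algebraMap E F α₀) := by
  rw [FF.ord_mul hF P ((_root_.map_ne_zero _).2 hc) (pr_ne hX n), FF.ord_algebraMap hF P hc,
    zero_add, ord_pr hF hX hP]

/-- at infinity -/
theorem ord_sub_inf {P : Place E F} (hP : X ∉ P.ring) (α : E) :
    ord P.ring (X - algebraMap E F α) = ord P.ring X := by
  have hX0 : X ≠ 0 := by
    rintro rfl
    exact hP P.ring.zero_mem
  by_cases h0 : α = 0
  · rw [h0, map_zero, sub_zero]
  · have h1 : ord P.ring X < 0 := by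
      by_contra h
      exact hP ((FF.ord_nonneg_iff hF P hX0).1 (not_lt.1 h))
    have h2 : X - algebraMap E F α = X + algebraMap E F (-α) := by
      rw [map_neg]; ring
    rw [h2, (FF.ord_add_eq_left hF P hX0 ((_root_.map_ne_zero _).2 (neg_ne_zero.2 h0)) (by
      rw [FF.ord_algebraMap hF P (neg_ne_zero.2 h0)]
      exact h1)).2]

end ord

section hyp

variable [IsAlgClosed E] (hF : IsFunctionField E F) (hX : Transcendental E X) {r : F} {c₀ : E}
  (hc₀ : c₀ ≠ 0) {B : Finset E} (hr : r ^ 2 = algebraMap E F c₀ * ∏ β ∈ B, (X - algebraMap E F β))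

include hX hc₀ hr

theorem r_ne : r ≠ 0 := by
  rintro rfl
  have h1 : algebraMap E F c₀ * ∏ β ∈ B, (X - algebraMap E F β) ≠ 0 :=
    mul_ne_zero ((_root_.map_ne_zero _).2 hc₀)
      (Finset.prod_ne_zero_iff.2 fun β _ => X_sub_ne hX β)
  rw [← hr] at h1
  exact h1 (by simp)

theorem r_sq_mem : r ^ 2 ∈ E⟮X⟯ := by
  rw [hr]
  exact mul_mem (E⟮X⟯.algebraMap_mem _) (prod_mem fun β _ =>
    sub_mem (mem_adjoin_simple_self E X) (E⟮X⟯.algebraMap_mem β))

include hF

open scoped Classical in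
theorem ord_r {P : Place E F} {α₀ : E} (hP : X - algebraMap E F α₀ ∈ P.ring.nonunits) :
    2 * ord P.ring r = (if α₀ ∈ B then 1 else 0) * ord P.ring (X - algebraMap E F α₀) := by
  have h1 := FF.ord_pow hF P (r_ne hX hc₀ hr) 2
  rw [hr, ← pr_finset hX, ord_fac hF hX hP hc₀, sum_single_apply] at h1
  push_cast at h1
  exact h1.symm

variable (h2 : (2 : F) ≠ 0) (hspan : ∀ z : F, ∃ a ∈ E⟮X⟯, ∃ b ∈ E⟮X⟯, z = a + b * r)

/-- all orders of elements of `E(X)` are multiples of the order of `X - α₀` -/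
theorem dvd_of_mem {P : Place E F} {α₀ : E} (hP : X - algebraMap E F α₀ ∈ P.ring.nonunits) {g : F}
    (hg : g ∈ E⟮X⟯) (hg0 : g ≠ 0) : ord P.ring (X - algebraMap E F α₀) ∣ ord P.ring g := by
  obtain ⟨c, n, hc, rfl⟩ := fac hX hg hg0
  rw [ord_fac hF hX hP hc]
  exact Dvd.intro_left _ rfl

include h2 in
theorem dvd_unr {P : Place E F} {α₀ : E} (hP : X - algebraMap E F α₀ ∈ P.ring.nonunits)
    (hα : α₀ ∉ B) {a b : F} (ha : a ∈ E⟮X⟯) (hb : b ∈ E⟮X⟯) (h0 : a + b * r ≠ 0) :
    ord P.ring (X - algebraMap E F α₀) ∣ ord P.ring (a + b * r) := by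
  have hr0 := r_ne hX hc₀ hr
  have hordr : ord P.ring r = 0 := by
    have := ord_r hF hX hc₀ hr hP
    rw [if_neg hα] at this
    omega
  -- the main case
  have key : ∀ a b : F, a ∈ E⟮X⟯ → b ∈ E⟮X⟯ → a + b * r ≠ 0 → a ∈ P.ring → b ∈ P.ring →
      (a = 1 ∨ b = 1) → ord P.ring (X - algebraMap E F α₀) ∣ ord P.ring (a + b * r) := by
    intro a b ha hb h0 haP hbP hab
    have hrP : r ∈ P.ring := (FF.ord_nonneg_iff hF P hr0).1 hordr.ge
    have hrN : r ∉ P.ring.nonunits := by
      rw [← FF.ord_pos_iff hF P hr0]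
      omega
    have h2P : (2 : F) ∉ P.ring.nonunits := by
      rw [← FF.ord_pos_iff hF P h2]
      have h3 : (2 : F) = algebraMap E F 2 := (map_ofNat _ 2).symm
      have h4 : (2 : E) ≠ 0 := by
        intro h5
        rw [h5, map_zero] at h3
        exact h2 h3
      rw [h3, FF.ord_algebraMap hF P h4]
      exact lt_irrefl _
    have hyP : a + b * r ∈ P.ring := P.ring.add_mem _ _ haP (P.ring.mul_mem _ _ hbP hrP)
    have hy'P : a - b * r ∈ P.ring := sub_mem haP (P.ring.mul_mem _ _ hbP hrP)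
    by_cases hyN : a + b * r ∈ P.ring.nonunits
    · by_cases hy'0 : a - b * r = 0
      · have h3 : a + b * r = a * 2 := by linear_combination -hy'0
        have ha0 : a ≠ 0 := by
          rintro rfl
          rw [h3, zero_mul] at h0
          exact h0 rfl
        have h4 : ord P.ring (2 : F) = 0 := by
          have h5 : (2 : F) ∈ P.ring := by
            have := P.algebraMap_mem 2
            simpa using this
          have h6 := (FF.ord_nonneg_iff hF P h2).2 h5
          rw [← FF.ord_pos_iff hF P h2] at h2P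
          omega
        rw [h3, FF.ord_mul hF P ha0 h2, h4, add_zero]
        exact dvd_of_mem hF hX hc₀ hr hP ha ha0
      · have hy'N : a - b * r ∉ P.ring.nonunits := by
          intro hy'N
          have hadd : ∀ {x y : F}, x ∈ P.ring.nonunits → y ∈ P.ring.nonunits →
              x + y ∈ P.ring.nonunits := by
            intro x y hx hy
            rw [← FF.val_lt_one_iff hF] at hx hy ⊢
            exact (Valuation.map_add_lt _ hx hy)
          have hneg : ∀ {x : F}, x ∈ P.ring.nonunits → -x ∈ P.ring.nonunits := by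
            intro x hx
            rw [← FF.val_lt_one_iff hF] at hx ⊢
            rwa [Valuation.map_neg]
          rcases hab with h | h
          · have h3 : (a + b * r) + (a - b * r) = 2 := by rw [h]; ring
            have h4 := hadd hyN hy'N
            rw [h3] at h4
            exact h2P h4
          · have h3 : (a + b * r) + -(a - b * r) = 2 * r := by rw [h]; ring
            have h4 := hadd hyN (hneg hy'N)
            rw [h3, ← FF.ord_pos_iff hF P (mul_ne_zero h2 hr0), FF.ord_mul hF P h2 hr0,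
              hordr, add_zero, FF.ord_pos_iff hF P h2] at h4
            exact h2P h4
        have hord' : ord P.ring (a - b * r) = 0 := by
          have h3 := (FF.ord_nonneg_iff hF P hy'0).2 hy'P
          rw [← FF.ord_pos_iff hF P hy'0] at hy'N
          omega
        have h3 := FF.ord_mul hF P h0 hy'0
        rw [hord', add_zero] at h3
        rw [← h3]
        refine dvd_of_mem hF hX hc₀ hr hP ?_ (mul_ne_zero h0 hy'0)
        have h4 : (a + b * r) * (a - b * r) = a ^ 2 - b ^ 2 * r ^ 2 := by ring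
        rw [h4]
        exact sub_mem (pow_mem ha 2) (mul_mem (pow_mem hb 2) (r_sq_mem hX hc₀ hr))
    · have h3 := (FF.ord_nonneg_iff hF P h0).2 hyP
      rw [← FF.ord_pos_iff hF P h0] at hyN
      have h4 : ord P.ring (a + b * r) = 0 := by omega
      rw [h4]
      exact dvd_zero _
  -- scaling
  by_cases ha0 : a = 0
  · subst ha0
    have hb0 : b ≠ 0 := by
      rintro rfl
      simp at h0
    rw [zero_add, FF.ord_mul hF P hb0 hr0, hordr, add_zero]
    exact dvd_of_mem hF hX hc₀ hr hP hb hb0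
  by_cases hb0 : b = 0
  · subst hb0
    rw [zero_mul, add_zero]
    exact dvd_of_mem hF hX hc₀ hr hP ha ha0
  rcases le_total (ord P.ring a) (ord P.ring b) with hle | hle
  · have h3 : a + b * r = a * (1 + b / a * r) := by field_simp
    have h4 : 1 + b / a * r ≠ 0 := by
      intro h5
      rw [h3, h5, mul_zero] at h0
      exact h0 rfl
    rw [h3, FF.ord_mul hF P ha0 h4]
    refine dvd_add (dvd_of_mem hF hX hc₀ hr hP ha ha0) (key 1 (b / a) (one_mem _)
      (div_mem hb ha) h4 P.ring.one_mem ?_ (Or.inl rfl))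
    rw [← FF.ord_nonneg_iff hF P (div_ne_zero hb0 ha0), FF.ord_div hF P hb0 ha0]
    omega
  · have h3 : a + b * r = b * (a / b + 1 * r) := by field_simp
    have h4 : a / b + 1 * r ≠ 0 := by
      intro h5
      rw [h3, h5, mul_zero] at h0
      exact h0 rfl
    rw [h3, FF.ord_mul hF P hb0 h4]
    refine dvd_add (dvd_of_mem hF hX hc₀ hr hP hb hb0) (key (a / b) 1
      (div_mem ha hb) (one_mem _) h4 ?_ P.ring.one_mem (Or.inr rfl))
    rw [← FF.ord_nonneg_iff hF P (div_ne_zero ha0 hb0), FF.ord_div hF P ha0 hb0]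
    omega

include h2 hspan in
/-- away from the branch points `X - α₀` has a simple zero -/
theorem ord_unr {P : Place E F} {α₀ : E} (hP : X - algebraMap E F α₀ ∈ P.ring.nonunits)
    (hα : α₀ ∉ B) : ord P.ring (X - algebraMap E F α₀) = 1 := by
  obtain ⟨π, hπ0, hπ⟩ := FF.exists_uniformizer hF P
  obtain ⟨a, ha, b, hb, rfl⟩ := hspan π
  have h1 := dvd_unr hF hX hc₀ hr h2 hP hα ha hb hπ0
  rw [hπ] at h1
  have h3 := (FF.ord_pos_iff hF P (X_sub_ne hX α₀)).2 hP
  exact Int.eq_one_of_dvd_one h3.le h1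

/-- at a branch point: orders of the two parts are different -/
theorem ord_ram {P : Place E F} {α₀ : E} (hP : X - algebraMap E F α₀ ∈ P.ring.nonunits)
    (hα : α₀ ∈ B) {a b : F} (ha : a ∈ E⟮X⟯) (hb : b ∈ E⟮X⟯) (h0 : a + b * r ≠ 0) :
    ord P.ring r ∣ ord P.ring (a + b * r) ∧
      (a - b * r ≠ 0 → ord P.ring (a - b * r) = ord P.ring (a + b * r)) := by
  have hr0 := r_ne hX hc₀ hr
  have hordr : 2 * ord P.ring r = ord P.ring (X - algebraMap E F α₀) := by
    have := ord_r hF hX hc₀ hr hP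
    rwa [if_pos hα, one_mul] at this
  have hpos := (FF.ord_pos_iff hF P (X_sub_ne hX α₀)).2 hP
  by_cases ha0 : a = 0
  · subst ha0
    have hb0 : b ≠ 0 := by
      rintro rfl
      simp at h0
    constructor
    · rw [zero_add, FF.ord_mul hF P hb0 hr0]
      refine dvd_add ?_ dvd_rfl
      exact (Dvd.intro_left _ hordr).trans (dvd_of_mem hF hX hc₀ hr hP hb hb0)
    · intro _
      rw [zero_sub, zero_add, FF.ord_neg hF P (mul_ne_zero hb0 hr0)]
  by_cases hb0 : b = 0
  · subst hb0
    rw [zero_mul, add_zero, sub_zero]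
    exact ⟨(Dvd.intro_left _ hordr).trans (dvd_of_mem hF hX hc₀ hr hP ha ha0), fun _ => rfl⟩
  have hbr0 : b * r ≠ 0 := mul_ne_zero hb0 hr0
  obtain ⟨s, hs⟩ := dvd_of_mem hF hX hc₀ hr hP ha ha0
  obtain ⟨t, ht⟩ := dvd_of_mem hF hX hc₀ hr hP hb hb0
  have hbr : ord P.ring (b * r) = (2 * t + 1) * ord P.ring r := by
    rw [FF.ord_mul hF P hb0 hr0, ht, ← hordr]
    ring
  have has : ord P.ring a = (2 * s) * ord P.ring r := by
    rw [hs, ← hordr]
    ring
  have hrpos : 0 < ord P.ring r := by omega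
  have hne : ord P.ring a ≠ ord P.ring (b * r) := by
    rw [hbr, has]
    intro h3
    have h4 := mul_right_cancel₀ hrpos.ne' h3
    omega
  rcases lt_or_gt_of_ne hne with hlt | hlt
  · have h3 := FF.ord_add_eq_left hF P ha0 hbr0 hlt
    have h4 := FF.ord_add_eq_left hF P ha0 (neg_ne_zero.2 hbr0) (by
      rw [FF.ord_neg hF P hbr0]; exact hlt)
    rw [← sub_eq_add_neg] at h4
    rw [h3.2]
    exact ⟨has ▸ Dvd.intro_left _ rfl, fun _ => h4.2⟩
  · have h3 := FF.ord_add_eq_left hF P hbr0 ha0 hlt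
    have h4 := FF.ord_add_eq_left hF P (neg_ne_zero.2 hbr0) ha0 (by
      rw [FF.ord_neg hF P hbr0]; exact hlt)
    rw [neg_add_eq_sub, FF.ord_neg hF P hbr0] at h4
    rw [add_comm, h3.2]
    exact ⟨hbr ▸ Dvd.intro_left _ rfl, fun _ => h4.2⟩

include hspan in
/-- at the branch points the function `r` has a simple zero -/
theorem ord_r_one {P : Place E F} {α₀ : E} (hP : X - algebraMap E F α₀ ∈ P.ring.nonunits)
    (hα : α₀ ∈ B) : ord P.ring r = 1 ∧ ord P.ring (X - algebraMap E F α₀) = 2 := by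
  have hordr : 2 * ord P.ring r = ord P.ring (X - algebraMap E F α₀) := by
    have := ord_r hF hX hc₀ hr hP
    rwa [if_pos hα, one_mul] at this
  have hpos := (FF.ord_pos_iff hF P (X_sub_ne hX α₀)).2 hP
  obtain ⟨π, hπ0, hπ⟩ := FF.exists_uniformizer hF P
  obtain ⟨a, ha, b, hb, rfl⟩ := hspan π
  have h1 := (ord_ram hF hX hc₀ hr hP hα ha hb hπ0).1
  rw [hπ] at h1
  have h3 := Int.eq_one_of_dvd_one (by omega) h1
  exact ⟨h3, by omega⟩

include h2 hspan in
/-- Norms of functions all of whose orders are divisible by `N`. -/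
theorem norm_pow (N : ℕ) {a b : F} (ha : a ∈ E⟮X⟯) (hb : b ∈ E⟮X⟯) (h0 : a + b * r ≠ 0)
    (h0' : a - b * r ≠ 0) (h : ∀ P : Place E F, (N : ℤ) ∣ ord P.ring (a + b * r))
    (h' : ∀ P : Place E F, (N : ℤ) ∣ ord P.ring (a - b * r)) :
    ∃ c : E, c ≠ 0 ∧ ∃ q ∈ E⟮X⟯, q ≠ 0 ∧ (a + b * r) * (a - b * r) = algebraMap E F c * q ^ N := by
  have hg : (a + b * r) * (a - b * r) ∈ E⟮X⟯ := by
    have h4 : (a + b * r) * (a - b * r) = a ^ 2 - b ^ 2 * r ^ 2 := by ring
    rw [h4]
    exact sub_mem (pow_mem ha 2) (mul_mem (pow_mem hb 2) (r_sq_mem hX hc₀ hr))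
  obtain ⟨c, n, hc, hgn⟩ := fac hX hg (mul_ne_zero h0 h0')
  have hn : ∀ α₀ : E, (N : ℤ) ∣ n α₀ := by
    intro α₀
    obtain ⟨P, hP⟩ := FF.exists_place (X_sub_tr hX α₀)
    have h3 := ord_fac hF hX hP hc n
    rw [← hgn, FF.ord_mul hF P h0 h0'] at h3
    by_cases hα : α₀ ∈ B
    · rw [(ord_ram hF hX hc₀ hr hP hα ha hb h0).2 h0', (ord_r_one hF hX hc₀ hr hspan hP hα).2] at h3
      have h4 : n α₀ = ord P.ring (a + b * r) := by omega
      rw [h4]
      exact h P
    · rw [ord_unr hF hX hc₀ hr h2 hspan hP hα, mul_one] at h3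
      rw [← h3]
      exact dvd_add (h P) (h' P)
  choose m hm using hn
  by_cases hN : N = 0
  · subst hN
    have hn0 : n = 0 := by
      ext α
      rw [hm α]
      simp
    refine ⟨c, hc, 1, one_mem _, one_ne_zero, ?_⟩
    rw [hgn, hn0, pr_zero, one_pow]
  · have hN' : (N : ℤ) ≠ 0 := by exact_mod_cast hN
    let m' : E →₀ ℤ := Finsupp.ofSupportFinite m (n.finite_support.subset fun α hα h3 => hα (by
      rw [hm α] at h3
      exact (mul_eq_zero.1 h3).resolve_left hN'))
    have hnm : n = N • m' := by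
      ext α
      rw [Finsupp.smul_apply, hm α, nsmul_eq_mul]
      rfl
    refine ⟨c, hc, pr X m', pr_mem m', pr_ne hX m', ?_⟩
    rw [hgn, hnm, pr_nsmul hX]

include h2 hspan in
/-- functions of `X` all of whose orders are even -/
theorem sq_part {g : F} (hg : g ∈ E⟮X⟯) (hg0 : g ≠ 0)
    (h : ∀ P : Place E F, (2 : ℤ) ∣ ord P.ring g) :
    ∃ S ⊆ B, ∃ c : E, c ≠ 0 ∧ ∃ q ∈ E⟮X⟯, q ≠ 0 ∧
      g = algebraMap E F c * q ^ 2 * ∏ β ∈ S, (X - algebraMap E F β) := by
  classical
  obtain ⟨c, n, hc, hgn⟩ := fac hX hg hg0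
  have hn : ∀ α₀ : E, α₀ ∉ B → (2 : ℤ) ∣ n α₀ := by
    intro α₀ hα
    obtain ⟨P, hP⟩ := FF.exists_place (X_sub_tr hX α₀)
    have h3 := ord_fac hF hX hP hc n
    rw [← hgn, ord_unr hF hX hc₀ hr h2 hspan hP hα, mul_one] at h3
    rw [← h3]
    exact h P
  let S : Finset E := B.filter fun β => ¬ (2 : ℤ) ∣ n β
  have hnS : ∀ α : E, ∃ m : ℤ, n α = 2 * m + (if α ∈ S then 1 else 0) := by
    intro α
    by_cases hα : α ∈ S
    · rw [if_pos hα]
      have h3 := (Finset.mem_filter.1 hα).2
      exact ⟨n α / 2, by omega⟩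
    · rw [if_neg hα]
      by_cases hB : α ∈ B
      · have h3 : (2 : ℤ) ∣ n α := by
          by_contra h4
          exact hα (Finset.mem_filter.2 ⟨hB, h4⟩)
        exact ⟨n α / 2, by omega⟩
      · have h3 := hn α hB
        exact ⟨n α / 2, by omega⟩
  choose m hm using hnS
  let m' : E →₀ ℤ := Finsupp.ofSupportFinite m
    ((n.finite_support.union S.finite_toSet).subset fun α hα => by
      by_contra h3
      rw [Set.mem_union, not_or] at h3
      have h4 := hm α
      rw [if_neg (fun h5 : α ∈ S => h3.2 (Finset.mem_coe.2 h5))] at h4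
      have h5 : n α = 0 := by
        by_contra h6
        exact h3.1 h6
      exact hα (by omega))
  have hnm : n = 2 • m' + ∑ β ∈ S, Finsupp.single β (1 : ℤ) := by
    ext α
    rw [Finsupp.add_apply, Finsupp.smul_apply, sum_single_apply, hm α, nsmul_eq_mul]
    rfl
  refine ⟨S, Finset.filter_subset _ _, c, hc, pr X m', pr_mem m', pr_ne hX m', ?_⟩
  rw [hgn, hnm, pr_add hX, pr_nsmul hX, pr_finset hX, mul_assoc]

include h2 hspan in
/-- `X - β` has even orders -/
theorem even_root (hB : Odd B.card) {β : E} (hβ : β ∈ B) (P : Place E F) :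
    (2 : ℤ) ∣ ord P.ring (X - algebraMap E F β) := by
  by_cases hXP : X ∈ P.ring
  · obtain ⟨α₀, hP⟩ := FF.exists_residue hF P hXP
    by_cases h : β = α₀
    · subst h
      rw [(ord_r_one hF hX hc₀ hr hspan hP hβ).2]
    · rw [ord_sub_ne hF hX hP h]
      exact dvd_zero _
  · rw [ord_sub_inf hF hXP]
    have h1 := FF.ord_pow hF P (r_ne hX hc₀ hr) 2
    rw [hr, FF.ord_mul hF P ((_root_.map_ne_zero _).2 hc₀)
      (Finset.prod_ne_zero_iff.2 fun β _ => X_sub_ne hX β), FF.ord_algebraMap hF P hc₀, zero_add,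
      FF.ord_prod hF P _ _ fun β _ => X_sub_ne hX β,
      Finset.sum_congr rfl fun β _ => ord_sub_inf hF hXP β, Finset.sum_const, nsmul_eq_mul] at h1
    obtain ⟨t, ht⟩ := hB
    rw [ht] at h1
    push_cast at h1
    refine ⟨ord P.ring r - t * ord P.ring X, ?_⟩
    linear_combination h1

include h2 hspan in
/-- products of the `X - β` which are squares -/
theorem square_iff (hrX : r ∉ E⟮X⟯) {S : Finset E} (hS : S ⊆ B) {z : F}
    (hz : z ^ 2 = ∏ β ∈ S, (X - algebraMap E F β)) : S = ∅ ∨ S = B := by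
  classical
  have hr0 := r_ne hX hc₀ hr
  obtain ⟨a, ha, b, hb, rfl⟩ := hspan z
  have hab : a = 0 ∨ b = 0 := by
    by_contra hcon
    push Not at hcon
    apply hrX
    have h1 : r = (∏ β ∈ S, (X - algebraMap E F β) - a ^ 2 - b ^ 2 * r ^ 2) / (2 * a * b) := by
      rw [← hz]
      have := hcon.1
      have := hcon.2
      field_simp
      ring
    rw [h1]
    refine div_mem (sub_mem (sub_mem ?_ (pow_mem ha 2)) (mul_mem (pow_mem hb 2)
      (r_sq_mem hX hc₀ hr))) (mul_mem (mul_mem ?_ ha) hb)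
    · exact prod_mem fun β _ => sub_mem (mem_adjoin_simple_self E X) (E⟮X⟯.algebraMap_mem β)
    · exact ofNat_mem _ 2
  have hprod : ∏ β ∈ S, (X - algebraMap E F β) ≠ 0 :=
    Finset.prod_ne_zero_iff.2 fun β _ => X_sub_ne hX β
  have hz0 : a + b * r ≠ 0 := by
    intro h
    rw [h] at hz
    exact hprod (by rw [← hz]; simp)
  have hordS : ∀ (P : Place E F) (β : E), X - algebraMap E F β ∈ P.ring.nonunits → β ∈ B →
      2 * ord P.ring (a + b * r) = (if β ∈ S then 1 else 0) * 2 := by
    intro P β hP hβ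
    have h1 := FF.ord_pow hF P hz0 2
    rw [hz, ← pr_finset hX, ord_pr hF hX hP, sum_single_apply,
      (ord_r_one hF hX hc₀ hr hspan hP hβ).2] at h1
    push_cast at h1
    exact h1.symm
  rcases hab with rfl | rfl
  · -- `z = b r`
    right
    refine Finset.Subset.antisymm hS fun β hβ => ?_
    by_contra hβS
    obtain ⟨P, hP⟩ := FF.exists_place (X_sub_tr hX β)
    have h1 := hordS P β hP hβ
    have hb0 : b ≠ 0 := by
      rintro rfl
      simp at hz0
    rw [if_neg hβS, zero_add, FF.ord_mul hF P hb0 hr0, (ord_r_one hF hX hc₀ hr hspan hP hβ).1] at h1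
    have h3 := dvd_of_mem hF hX hc₀ hr hP hb hb0
    rw [(ord_r_one hF hX hc₀ hr hspan hP hβ).2] at h3
    omega
  · left
    refine Finset.eq_empty_of_forall_notMem fun β hβS => ?_
    obtain ⟨P, hP⟩ := FF.exists_place (X_sub_tr hX β)
    have hβ := hS hβS
    have h1 := hordS P β hP hβ
    have ha0 : a ≠ 0 := by
      rintro rfl
      simp at hz0
    rw [if_pos hβS, zero_mul, add_zero] at h1
    have h3 := dvd_of_mem hF hX hc₀ hr hP ha ha0
    rw [(ord_r_one hF hX hc₀ hr hspan hP hβ).2] at h3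
    omega

end hyp

end Pool.Agent.TOW.KX2aux
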