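import Pool.Agent.Helper45.TW.YDefs

/-!
# Project TW, block TRY: the transfer of the level `LevY`
-/

set_option autoImplicit false
set_option linter.unusedSectionVars false

namespace Pool.Agent.TOWS

open VC Polynomial IntermediateField NumberField IsDedekindDomain Pool.Agent.SC Pool.Agent.L
  Pool.Agent.M Pool.Agent.Helper91.Sect

noncomputable section

namespace TRYaux

variable {k K0 E U : Type} [Field k] [NumberField k] [Field K0] [Field E] [Field U]
  [Algebra k K0] [Algebra k E] [Algebra E U] [Algebra K0 U] [Algebra k U] [IsScalarTower k E U]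
  [IsScalarTower k K0 U] {h : K0} {r : U} (G : Geo k K0 E U h r)
  {K : Type} [Field K] [Algebra k K] [Algebra K0 K] [IsScalarTower k K0 K] {y : K}
  {c : k} (hc : c ≠ 0) (hy : y ^ 2 = algebraMap k K c * algebraMap K0 K h)
  {j : U →+* AlgebraicClosure K}
  (hj1 : ∀ x : K0, j (algebraMap K0 U x) = algebraMap K (AlgebraicClosure K) (algebraMap K0 K x))
  (hj2 : ∀ z : E, IsAlgebraic k (j (algebraMap E U z)))
  (hj3 : ∀ z : AlgebraicClosure K, IsAlgebraic k z → ∃ z' : E, j (algebraMap E U z') = z)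

include hj1 hj3 in
/-- `kbar K0` is in the image of `L0` -/
theorem yb_sub (z : AlgebraicClosure K) (hz : z ∈ YB k K0 K) :
    ∃ u ∈ L0 E K0 (U := U), j u = z := by
  have h1 : YB k K0 K ≤ (L0 E K0 (U := U)).toSubfield.map j := by
    rw [YB, Subfield.closure_le]
    rintro z (hz | ⟨x, rfl⟩)
    · obtain ⟨z', rfl⟩ := hj3 z hz
      exact ⟨_, (L0 E K0 (U := U)).algebraMap_mem z', rfl⟩
    · exact ⟨algebraMap K0 U x, IntermediateField.subset_adjoin _ _ ⟨x, rfl⟩, hj1 x⟩
  obtain ⟨u, hu, hu'⟩ := h1 hz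
  exact ⟨u, hu, hu'⟩

include G hy hj1 hj3 in
/-- `kbar K0 (y)` is in the image of `M` -/
theorem xb_sub (z : AlgebraicClosure K) (hz : z ∈ XB k K0 y) :
    ∃ u ∈ MM E K0 r, j u = z := by
  have h1 : XB k K0 y ≤ (MM E K0 r).toSubfield.map j := by
    rw [XB, Subfield.closure_le]
    rintro z ((hz | ⟨x, rfl⟩) | hz)
    · obtain ⟨z', rfl⟩ := hj3 z hz
      exact ⟨_, (MM E K0 r).algebraMap_mem z', rfl⟩
    · exact ⟨algebraMap K0 U x, IntermediateField.subset_adjoin _ _ (Or.inl ⟨x, rfl⟩), hj1 x⟩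
    · obtain ⟨d, hd⟩ := Pool.Agent.TW.j_r97 G hy hj1
      refine ⟨algebraMap E U d * r, ?_, ?_⟩
      · exact mul_mem ((MM E K0 r).algebraMap_mem d)
          (IntermediateField.subset_adjoin _ _ (Or.inr rfl))
      · rw [hz]; exact hd
  obtain ⟨u, hu, hu'⟩ := h1 hz
  exact ⟨u, hu, hu'⟩

include G hy hj1 hj2 hj3 in
/-- the roots are in the image of `Y2` -/
theorem rty_sub {w : AlgebraicClosure K} (hw : IsRtY k K0 y w) :
    ∃ u ∈ Y2 E K0 (U := U), j u = w := by
  obtain ⟨u, hu, huY, hP⟩ := hw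
  obtain ⟨u0, hu0, hju⟩ := yb_sub (E := E) (U := U) hj1 hj3 u huY
  by_cases hw0 : w = 0
  · exact ⟨0, zero_mem _, by rw [map_zero, hw0]⟩
  have hu00 : u0 ≠ 0 := by
    rintro rfl
    rw [map_zero] at hju
    rw [← hju] at hu
    exact pow_ne_zero 2 hw0 hu.symm
  obtain ⟨w0, hw0'⟩ := G.cover.root u0 2 two_pos (by
    intro W hW
    by_cases hWt : W = ⊤
    · refine ⟨1, ?_⟩
      rw [one_pow, map_one]
      refine le_antisymm ?_ ?_
      · rw [ValuationSubring.valuation_le_one_iff, hWt]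
        trivial
      · have h1 : W.valuation u0⁻¹ ≤ 1 := by
          rw [ValuationSubring.valuation_le_one_iff, hWt]
          trivial
        rw [map_inv₀] at h1
        exact (inv_le_one₀ (zero_lt_iff.2 ((Valuation.ne_zero_iff _).2 hu00))).1 h1
    obtain ⟨V, hV1, hV2⟩ := Pool.Agent.TW.exists_ext97 (k := k) hj2 hj3 (⟨W, hW, hWt⟩ : Place E U)
    obtain ⟨z, hz⟩ := hP (V.comap (XB k K0 y).subtype) fun z hz => hV2 _ hz
    obtain ⟨z0, hz0, hjz⟩ := xb_sub G hy hj1 hj3 z z.2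
    refine ⟨z0, ?_⟩
    have hu1 : u ≠ 0 := by
      rintro rfl
      exact pow_ne_zero 2 hw0 hu.symm
    have hz1 : z ≠ 0 := by
      rintro rfl
      rw [map_zero, zero_pow two_ne_zero] at hz
      exact hu1 ((map_eq_zero _).1 hz)
    have hz00 : z0 ≠ 0 := by
      rintro rfl
      rw [map_zero] at hjz
      exact hz1 (Subtype.ext hjz.symm)
    -- quotients are units
    have key : ∀ a b : XB k K0 y, ∀ a0 b0 : U, j a0 = a → j b0 = b → b ≠ 0 →
        b0 ≠ 0 →
        (V.comap (XB k K0 y).subtype).valuation a ≤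
          (V.comap (XB k K0 y).subtype).valuation b →
        W.valuation a0 ≤ W.valuation b0 := by
      intro a b a0 b0 ha hb hb0 hb00 hab
      have h1 : a / b ∈ V.comap (XB k K0 y).subtype := by
        rw [← ValuationSubring.valuation_le_one_iff, map_div₀]
        exact div_le_one_of_le₀ hab zero_le
      rw [ValuationSubring.mem_comap] at h1
      have h2 : (XB k K0 y).subtype (a / b) = j (a0 / b0) := by
        rw [map_div₀, map_div₀, ha, hb]
        rfl
      rw [h2, hV1] at h1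
      change a0 / b0 ∈ W at h1
      rw [← ValuationSubring.valuation_le_one_iff, map_div₀,
        div_le_one₀ (zero_lt_iff.2 ((Valuation.ne_zero_iff _).2 hb00))] at h1
      exact h1
    have hjzm : j (z0 ^ 2) = ((z ^ 2 : XB k K0 y) : AlgebraicClosure K) := by
      rw [map_pow, hjz]
      rfl
    refine le_antisymm ?_ ?_
    · exact key u (z ^ 2) u0 (z0 ^ 2) hju hjzm (pow_ne_zero 2 hz1) (pow_ne_zero 2 hz00)
        (by rw [map_pow]; exact hz.le)
    · exact key (z ^ 2) u (z0 ^ 2) u0 hjzm hju hu1 hu00 (by rw [map_pow]; exact hz.ge))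
  -- the quotient is a root of unity
  have hw00 : w0 ≠ 0 := by
    rintro rfl
    rw [zero_pow two_ne_zero] at hw0'
    exact hu00 hw0'.symm
  have hj0 : j w0 ≠ 0 := (map_ne_zero j).2 hw00
  have h1 : (w / j w0) ^ 2 = 1 := by
    rw [div_pow, ← map_pow, hw0', hju, hu]
    exact div_self (pow_ne_zero 2 hw0)
  have h2 : IsAlgebraic k (w / j w0) := by
    refine IsAlgebraic.of_pow two_pos ?_
    rw [h1]
    exact isAlgebraic_one
  obtain ⟨ζ, hζ⟩ := hj3 _ h2
  refine ⟨algebraMap E U ζ * w0, ?_, ?_⟩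
  · refine mul_mem ((Y2 E K0 (U := U)).algebraMap_mem ζ) ?_
    refine IntermediateField.subset_adjoin _ _ (Or.inr ⟨hw00, ?_⟩)
    rw [hw0']
    exact hu0
  · rw [map_mul, hζ, div_mul_cancel₀ _ hj0]

include G hy hj1 hj2 hj3 in
/-- the level is in the image of `Y2` -/
theorem levy_sub {z : AlgebraicClosure K} (hz : z ∈ LevY k K0 y) :
    ∃ u ∈ Y2 E K0 (U := U), j u = z := by
  have hLY : L0 E K0 (U := U) ≤ Y2 E K0 (U := U) := fun u hu =>
    IntermediateField.subset_adjoin _ _ (Or.inl hu)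
  have h1 : LevY k K0 y ≤ (Y2 E K0 (U := U)).toSubfield.map j := by
    rw [LevY, Subfield.closure_le]
    rintro z (hz | hz)
    · obtain ⟨u, hu, hu'⟩ := yb_sub (E := E) (U := U) hj1 hj3 z (Subfield.subset_closure hz)
      exact ⟨u, hLY hu, hu'⟩
    · obtain ⟨u, hu, hu'⟩ := rty_sub G hy hj1 hj2 hj3 hz
      exact ⟨u, hu, hu'⟩
  obtain ⟨u, hu, hu'⟩ := h1 hz
  exact ⟨u, hu, hu'⟩

end TRYaux

/-- **Block TRY**: the transfer of the level. -/
theorem tRY : StmtTRY := by
  intro k K0 E U _ _ _ _ _ _ _ _ _ _ _ _ h r G K _ _ _ _ y c _ hy j hj1 hj2 hj3 w hw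
  exact TRYaux.levy_sub G hy hj1 hj2 hj3 hw

end

end Pool.Agent.TOWS
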